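import Pool.Agent.Work.MP_89ab3c_nt.Wide.Powers

/-!
# Dilated powers `W r^k`, `r ≤ (log N)^(1+ε)`, as differences in dense sets of primes of any interval
-/

set_option autoImplicit false

namespace Pool.Agent.Results.MP_89ab3c_nt.PowersAnyInterval

theorem result (k : ℕ) (hk : 1 ≤ k) (ε α : ℝ) (hε : 0 < ε) (hα : 0 < α) :
    ∃ N₀ : ℕ, ∀ N : ℕ, N₀ ≤ N → ∀ (X W : ℕ) (A : Finset ℕ), 1 ≤ W →
      (W : ℝ) * (Real.log N ^ (1 + ε)) ^ k ≤ N →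
      (∀ p ∈ A, p.Prime ∧ X < p ∧ p ≤ X + N) → α * N / Real.log N ≤ A.card →
      ∃ a ∈ A, ∃ a' ∈ A, ∃ r : ℕ, 1 ≤ r ∧ (r : ℝ) ≤ Real.log N ^ (1 + ε) ∧ a = a' + W * r ^ k :=
  Filter.eventually_atTop.1 (Pool.Agent.Work.MP_89ab3c_nt.powers_wide k hk hε hα)

end Pool.Agent.Results.MP_89ab3c_nt.PowersAnyInterval
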